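import Mathlib

/-!
# Products of Dirichlet characters with random prime conductors: basic facts
-/

set_option autoImplicit false

namespace Pool.Agent.V11210.RC

open Finset

/-- the character modulo `q` induced by the character `χ` modulo `n`, if `n` divides `q` -/
noncomputable def induced (q : ℕ) {n : ℕ} (χ : DirichletCharacter ℂ n) : DirichletCharacter ℂ q :=
  if h : n ∣ q then DirichletCharacter.changeLevel h χ else 1

theorem induced_apply {n q : ℕ} (h : n ∣ q) (χ : DirichletCharacter ℂ n) {a : ℕ} (ha : a.Coprime q) :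
    induced q χ (a : ZMod q) = χ (a : ZMod n) := by
  unfold induced
  rw [dif_pos h]
  have := DirichletCharacter.changeLevel_eq_cast_of_dvd' χ h (a := (a : ℤ)) (Nat.isCoprime_iff_coprime.2 ha)
  simpa using this

theorem zero_of_not_coprime {q : ℕ} (χ : DirichletCharacter ℂ q) {a : ℕ} (ha : ¬ a.Coprime q) : χ (a : ZMod q) = 0 := by
  apply MulChar.map_nonunit
  rw [ZMod.isUnit_iff_coprime]
  exact ha

theorem prod_apply {ι : Type} [DecidableEq ι] (I : Finset ι) (q : ℕ) (F : ι → DirichletCharacter ℂ q) (a : ℕ) (ha : a.Coprime q) :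
    (∏ i ∈ I, F i) (a : ZMod q) = ∏ i ∈ I, F i (a : ZMod q) := by
  induction I using Finset.induction_on with
  | empty =>
    rw [prod_empty, prod_empty]
    exact MulChar.one_apply ((ZMod.isUnit_iff_coprime a q).2 ha)
  | insert i I hi ih =>
    rw [prod_insert hi, prod_insert hi, MulChar.mul_apply, ih]

theorem norm_le (q : ℕ) (χ : DirichletCharacter ℂ q) (a : ZMod q) : ‖χ a‖ ≤ 1 := DirichletCharacter.norm_le_one χ a

/-- a complete sum -/
theorem complete {q : ℕ} (hq : 1 ≤ q) (χ : DirichletCharacter ℂ q) (hχ : χ ≠ 1) (M : ℕ) :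
    ∑ a ∈ Ioc M (M + q), χ (a : ZMod q) = 0 := by
  haveI : NeZero q := ⟨by omega⟩
  have hinj : Set.InjOn (fun a : ℕ => (a : ZMod q)) (Ioc M (M + q) : Finset ℕ) := by
    intro a ha b hb hab
    rw [coe_Ioc, Set.mem_Ioc] at ha hb
    have h1 : a ≡ b [MOD q] := (ZMod.natCast_eq_natCast_iff a b q).1 hab
    rcases le_total a b with h | h
    · have h2 := (Nat.modEq_iff_dvd' h).1 h1
      by_contra hne
      have := Nat.le_of_dvd (by omega) h2
      omega
    · have h2 := (Nat.modEq_iff_dvd' h).1 h1.symm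
      by_contra hne
      have := Nat.le_of_dvd (by omega) h2
      omega
  have himg : (Ioc M (M + q)).image (fun a : ℕ => (a : ZMod q)) = univ := by
    apply eq_univ_of_card
    rw [card_image_of_injOn hinj, Nat.card_Ioc, ZMod.card]
    omega
  have h3 : ∑ a ∈ Ioc M (M + q), χ (a : ZMod q) = ∑ z : ZMod q, χ z := by
    rw [← himg, sum_image hinj]
  rw [h3, MulChar.sum_eq_zero_of_ne_one hχ]

/-- the trivial bound for the sums of a nonprincipal character -/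
theorem sum_le {q : ℕ} (hq : 1 ≤ q) (χ : DirichletCharacter ℂ q) (hχ : χ ≠ 1) (N : ℕ) :
    ‖∑ a ∈ Ioc 0 N, χ (a : ZMod q)‖ ≤ q := by
  induction N using Nat.strong_induction_on with
  | _ N ih =>
    by_cases h : N < q
    · have h3 : ∀ a ∈ Ioc 0 N, ‖χ ((a : ℕ) : ZMod q)‖ ≤ (1 : ℝ) := fun a _ => norm_le q χ _
      refine (norm_sum_le _ _).trans ((sum_le_sum h3).trans ?_)
      rw [sum_const, Nat.card_Ioc, nsmul_eq_mul, mul_one]
      have : N - 0 ≤ q := by omega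
      exact_mod_cast this
    · have h1 := sum_Ioc_consecutive (fun a : ℕ => χ (a : ZMod q)) (Nat.zero_le (N - q)) (Nat.sub_le N q)
      have h2 := complete hq χ hχ (N - q)
      rw [show N - q + q = N by omega] at h2
      rw [← h1, h2, add_zero]
      exact ih (N - q) (by omega)

/-- the large sieve idea -/
theorem second {Ω : Type} [DecidableEq Ω] (T : Finset Ω) (N : ℕ) (c : ℕ → ℂ) (hc : ∀ a, ‖c a‖ ≤ 1) (ψ : Ω → ℕ → ℂ)
    (hψ : ∀ s a, ‖ψ s a‖ ≤ 1) (D : ℝ) (hD : 0 ≤ D)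
    (h : ∀ s ∈ T, ∀ t ∈ T, s ≠ t → ‖∑ a ∈ Ioc 0 N, ψ s a * (starRingEnd ℂ) (ψ t a)‖ ≤ D) :
    ∑ s ∈ T, ‖∑ a ∈ Ioc 0 N, c a * ψ s a‖ ^ 2 ≤ (N : ℝ) * (N + T.card * D) := by
  obtain ⟨F, hF⟩ : ∃ F : Ω → ℂ, F = fun s => ∑ a ∈ Ioc 0 N, c a * ψ s a := ⟨_, rfl⟩
  obtain ⟨G, hG⟩ : ∃ G : ℕ → ℂ, G = fun a => ∑ s ∈ T, (starRingEnd ℂ) (F s) * ψ s a := ⟨_, rfl⟩
  obtain ⟨X, hX⟩ : ∃ X : ℝ, X = ∑ s ∈ T, ‖F s‖ ^ 2 := ⟨_, rfl⟩
  have hX0 : 0 ≤ X := by
    rw [hX]
    positivity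
  have e1 : (X : ℂ) = ∑ a ∈ Ioc 0 N, c a * G a := by
    rw [hX, hG]
    push_cast
    have : ∀ a, c a * ∑ s ∈ T, (starRingEnd ℂ) (F s) * ψ s a = ∑ s ∈ T, (starRingEnd ℂ) (F s) * (c a * ψ s a) := by
      intro a
      rw [mul_sum]
      exact sum_congr rfl fun s _ => by ring
    rw [sum_congr rfl fun a _ => this a, sum_comm]
    refine sum_congr rfl fun s _ => ?_
    rw [← mul_sum, ← Complex.conj_mul']
    rw [hF]
  have e2 : X ≤ ∑ a ∈ Ioc 0 N, ‖G a‖ := by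
    have : ‖(X : ℂ)‖ = X := by
      rw [Complex.norm_real, Real.norm_of_nonneg hX0]
    rw [← this, e1]
    refine (norm_sum_le _ _).trans (sum_le_sum fun a _ => ?_)
    rw [norm_mul]
    calc ‖c a‖ * ‖G a‖ ≤ 1 * ‖G a‖ := mul_le_mul_of_nonneg_right (hc a) (norm_nonneg _)
      _ = ‖G a‖ := one_mul _
  have e3 : X ^ 2 ≤ N * ∑ a ∈ Ioc 0 N, ‖G a‖ ^ 2 := by
    have h1 : X ^ 2 ≤ (∑ a ∈ Ioc 0 N, ‖G a‖) ^ 2 := pow_le_pow_left₀ hX0 e2 2
    refine h1.trans ?_
    have h2 := sq_sum_le_card_mul_sum_sq (s := Ioc 0 N) (f := fun a => ‖G a‖)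
    rw [Nat.card_Ioc] at h2
    simpa using h2
  have e4 : ∑ a ∈ Ioc 0 N, ‖G a‖ ^ 2 ≤ X * (N + T.card * D) := by
    have h1 : ((∑ a ∈ Ioc 0 N, ‖G a‖ ^ 2 : ℝ) : ℂ) =
        ∑ s ∈ T, ∑ t ∈ T, (starRingEnd ℂ) (F s) * F t * ∑ a ∈ Ioc 0 N, ψ s a * (starRingEnd ℂ) (ψ t a) := by
      push_cast
      have h2 : ∀ a, ((‖G a‖ : ℂ)) ^ 2 = ∑ s ∈ T, ∑ t ∈ T, (starRingEnd ℂ) (F s) * F t * (ψ s a * (starRingEnd ℂ) (ψ t a)) := by
        intro a
        rw [← Complex.mul_conj', hG]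
        simp only [map_sum, map_mul, Complex.conj_conj]
        rw [sum_mul_sum]
        refine sum_congr rfl fun s _ => sum_congr rfl fun t _ => ?_
        ring
      rw [sum_congr rfl fun a _ => h2 a, sum_comm]
      refine sum_congr rfl fun s _ => ?_
      rw [sum_comm]
      refine sum_congr rfl fun t _ => ?_
      rw [mul_sum]
    have h3 : ∑ a ∈ Ioc 0 N, ‖G a‖ ^ 2 ≤ ∑ s ∈ T, ∑ t ∈ T, ‖F s‖ * ‖F t‖ * (if s = t then (N : ℝ) else D) := by
      have h4 : ‖((∑ a ∈ Ioc 0 N, ‖G a‖ ^ 2 : ℝ) : ℂ)‖ = ∑ a ∈ Ioc 0 N, ‖G a‖ ^ 2 := by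
        rw [Complex.norm_real, Real.norm_of_nonneg (by positivity)]
      rw [← h4, h1]
      refine (norm_sum_le _ _).trans (sum_le_sum fun s hs => (norm_sum_le _ _).trans (sum_le_sum fun t ht => ?_))
      rw [norm_mul, norm_mul, RCLike.norm_conj]
      apply mul_le_mul_of_nonneg_left _ (by positivity)
      split_ifs with hst
      · rw [hst]
        refine (norm_sum_le _ _).trans ((sum_le_sum (g := fun _ => (1 : ℝ)) fun a _ => ?_).trans ?_)
        · rw [norm_mul, RCLike.norm_conj]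
          calc ‖ψ t a‖ * ‖ψ t a‖ ≤ 1 * 1 := mul_le_mul (hψ t a) (hψ t a) (norm_nonneg _) zero_le_one
            _ = 1 := one_mul _
        · rw [sum_const, Nat.card_Ioc]
          simp
      · exact h s hs t ht hst
    refine h3.trans ?_
    have h5 : ∀ s t, ‖F s‖ * ‖F t‖ * (if s = t then (N : ℝ) else D) ≤
        (‖F s‖ ^ 2 * (if s = t then (N : ℝ) else D) + ‖F t‖ ^ 2 * (if s = t then (N : ℝ) else D)) / 2 := by
      intro s t
      have h6 : (0 : ℝ) ≤ (if s = t then (N : ℝ) else D) := by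
        split_ifs
        · positivity
        · exact hD
      have h7 : ‖F s‖ * ‖F t‖ ≤ (‖F s‖ ^ 2 + ‖F t‖ ^ 2) / 2 := by nlinarith [sq_nonneg (‖F s‖ - ‖F t‖)]
      calc _ ≤ (‖F s‖ ^ 2 + ‖F t‖ ^ 2) / 2 * (if s = t then (N : ℝ) else D) := mul_le_mul_of_nonneg_right h7 h6
        _ = _ := by ring
    refine (sum_le_sum fun s _ => sum_le_sum fun t _ => h5 s t).trans ?_
    have h8 : ∀ s ∈ T, ∑ t ∈ T, (if s = t then (N : ℝ) else D) ≤ N + T.card * D := by
      intro s hs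
      have h9 : ∀ t ∈ T, (if s = t then (N : ℝ) else D) ≤ (if s = t then (N : ℝ) else 0) + D := by
        intro t _
        split_ifs
        · linarith
        · linarith
      refine (sum_le_sum h9).trans ?_
      rw [sum_add_distrib, sum_ite_eq, if_pos hs, sum_const, nsmul_eq_mul]
    have h8' : ∀ t ∈ T, ∑ s ∈ T, (if s = t then (N : ℝ) else D) ≤ N + T.card * D := by
      intro t ht
      refine le_trans (le_of_eq ?_) (h8 t ht)
      refine sum_congr rfl fun s _ => ?_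
      by_cases hst : s = t
      · rw [if_pos hst, if_pos hst.symm]
      · rw [if_neg hst, if_neg (fun h => hst h.symm)]
    have h10 : ∑ s ∈ T, ∑ t ∈ T, ‖F s‖ ^ 2 * (if s = t then (N : ℝ) else D) ≤ X * (N + T.card * D) := by
      rw [hX, sum_mul]
      refine sum_le_sum fun s hs => ?_
      rw [← mul_sum]
      exact mul_le_mul_of_nonneg_left (h8 s hs) (by positivity)
    have h11 : ∑ s ∈ T, ∑ t ∈ T, ‖F t‖ ^ 2 * (if s = t then (N : ℝ) else D) ≤ X * (N + T.card * D) := by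
      rw [sum_comm, hX, sum_mul]
      refine sum_le_sum fun t ht => ?_
      rw [← mul_sum]
      exact mul_le_mul_of_nonneg_left (h8' t ht) (by positivity)
    have h12 : ∑ s ∈ T, ∑ t ∈ T, (‖F s‖ ^ 2 * (if s = t then (N : ℝ) else D) + ‖F t‖ ^ 2 * (if s = t then (N : ℝ) else D)) / 2 =
        (∑ s ∈ T, ∑ t ∈ T, ‖F s‖ ^ 2 * (if s = t then (N : ℝ) else D) +
          ∑ s ∈ T, ∑ t ∈ T, ‖F t‖ ^ 2 * (if s = t then (N : ℝ) else D)) / 2 := by
      rw [← sum_add_distrib, sum_div]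
      refine sum_congr rfl fun s _ => ?_
      rw [← sum_add_distrib, sum_div]
    rw [h12]
    linarith
  have e5 : ∑ s ∈ T, ‖∑ a ∈ Ioc 0 N, c a * ψ s a‖ ^ 2 = X := by
    rw [hX, hF]
  rw [e5]
  rcases hX0.eq_or_lt with h0 | h0
  · rw [← h0]
    positivity
  · have e6 : X ^ 2 ≤ N * (X * (N + T.card * D)) := e3.trans (mul_le_mul_of_nonneg_left e4 (by positivity))
    have e7 : X * X ≤ X * (N * (N + T.card * D)) := by nlinarith
    exact le_of_mul_le_mul_left e7 h0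

end Pool.Agent.V11210.RC
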