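import Pool.Agent.V11210.RC.Basic

/-!
# Products of Dirichlet characters with random prime conductors: the second moment
-/

set_option autoImplicit false

namespace Pool.Agent.V11210.RC

open Finset

/-- the product of the character `χ₀` modulo `q₀` and the characters `χ (s i)` modulo `s i` -/
noncomputable def twist {R q₀ : ℕ} (χ₀ : DirichletCharacter ℂ q₀) (χ : (p : ℕ) → DirichletCharacter ℂ p) (s : Fin R → ℕ) :
    DirichletCharacter ℂ (q₀ * ∏ i, s i) :=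
  induced (q₀ * ∏ i, s i) χ₀ * ∏ i, induced (q₀ * ∏ i, s i) (χ (s i))

theorem twist_apply {R q₀ : ℕ} (χ₀ : DirichletCharacter ℂ q₀) (χ : (p : ℕ) → DirichletCharacter ℂ p) (s : Fin R → ℕ) (a : ℕ) :
    twist χ₀ χ s (a : ZMod (q₀ * ∏ i, s i)) = χ₀ (a : ZMod q₀) * ∏ i, χ (s i) (a : ZMod (s i)) := by
  by_cases ha : a.Coprime (q₀ * ∏ i, s i)
  · unfold twist
    rw [MulChar.mul_apply, prod_apply _ _ _ _ ha, induced_apply (Dvd.intro _ rfl) _ ha]
    congr 1
    refine prod_congr rfl fun i _ => ?_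
    rw [induced_apply ((dvd_prod_of_mem s (mem_univ i)).trans (Dvd.intro_left _ rfl)) _ ha]
  · rw [zero_of_not_coprime _ ha]
    rw [Nat.coprime_mul_iff_right, not_and_or] at ha
    rcases ha with ha | ha
    · rw [zero_of_not_coprime _ ha, zero_mul]
    · rw [Nat.coprime_prod_right_iff] at ha
      push Not at ha
      obtain ⟨i, hi, hai⟩ := ha
      rw [prod_eq_zero hi (zero_of_not_coprime _ hai), mul_zero]

/-- a nontrivial value -/
theorem exists_nat {p : ℕ} (hp : p.Prime) (χ : DirichletCharacter ℂ p) (hχ : χ ≠ 1) (m : ℕ) (hm : p.Coprime m) :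
    ∃ a : ℕ, a.Coprime p ∧ a ≡ 1 [MOD m] ∧ χ (a : ZMod p) ≠ 1 := by
  haveI : Fact p.Prime := ⟨hp⟩
  obtain ⟨u, hu⟩ : ∃ u : (ZMod p)ˣ, χ u ≠ 1 := by
    by_contra hcon
    push Not at hcon
    apply hχ
    ext u
    rw [hcon u, MulChar.one_apply_coe]
  obtain ⟨a, ha1, ha2⟩ := Nat.chineseRemainder hm (u : ZMod p).val 1
  have h1 : (a : ZMod p) = (u : ZMod p) := by
    have := (ZMod.natCast_eq_natCast_iff a _ p).2 ha1
    rw [this, ZMod.natCast_zmod_val]
  refine ⟨a, ?_, ha2, ?_⟩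
  · rw [← ZMod.isUnit_iff_coprime, h1]
    exact u.isUnit
  · rw [h1]
    exact hu

theorem one_of_modEq {n m a : ℕ} (χ : DirichletCharacter ℂ n) (h : n ∣ m) (ha : a ≡ 1 [MOD m]) : χ (a : ZMod n) = 1 := by
  have h1 : (a : ZMod n) = 1 := by
    have := (ZMod.natCast_eq_natCast_iff a 1 n).2 (ha.of_dvd h)
    rw [this, Nat.cast_one]
  rw [h1, map_one]

theorem coprime_of_modEq {m a : ℕ} (ha : a ≡ 1 [MOD m]) : a.Coprime m := by
  rw [Nat.Coprime, ha.gcd_eq]
  exact Nat.gcd_one_left m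

section

variable {R : ℕ} (P : Fin R → Finset ℕ)

/-- the twists are not principal -/
theorem twist_ne_one {q₀ : ℕ} (hR : 1 ≤ R) (hP : ∀ i, ∀ p ∈ P i, p.Prime) (hdis : ∀ i j, i ≠ j → Disjoint (P i) (P j))
    (hq : ∀ i, ∀ p ∈ P i, ¬ p ∣ q₀) (χ₀ : DirichletCharacter ℂ q₀) (χ : (p : ℕ) → DirichletCharacter ℂ p)
    (hχ : ∀ i, ∀ p ∈ P i, χ p ≠ 1) (s : Fin R → ℕ) (hs : s ∈ Fintype.piFinset P) : twist χ₀ χ s ≠ 1 := by
  rw [Fintype.mem_piFinset] at hs
  obtain ⟨i0⟩ : Nonempty (Fin R) := ⟨⟨0, hR⟩⟩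
  have hp := hP i0 _ (hs i0)
  have hcop : (s i0).Coprime (q₀ * ∏ i ∈ univ.erase i0, s i) := by
    rw [Nat.coprime_mul_iff_right]
    refine ⟨(Nat.Prime.coprime_iff_not_dvd hp).2 (hq i0 _ (hs i0)), ?_⟩
    rw [Nat.coprime_prod_right_iff]
    intro i hi
    rw [mem_erase] at hi
    rw [Nat.coprime_primes hp (hP i _ (hs i))]
    intro h
    exact (disjoint_left.1 (hdis i i0 hi.1)) (hs i) (h ▸ hs i0)
  obtain ⟨a, ha1, ha2, ha3⟩ := exists_nat hp (χ (s i0)) (hχ i0 _ (hs i0)) _ hcop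
  intro h
  have hprod : ∏ i, s i = s i0 * ∏ i ∈ univ.erase i0, s i := (mul_prod_erase univ s (mem_univ i0)).symm
  have hac : a.Coprime (q₀ * ∏ i, s i) := by
    have h1 := coprime_of_modEq ha2
    rw [Nat.coprime_mul_iff_right] at h1
    rw [Nat.coprime_mul_iff_right, hprod, Nat.coprime_mul_iff_right]
    exact ⟨h1.1, ha1, h1.2⟩
  have h2 := twist_apply χ₀ χ s a
  rw [h, MulChar.one_apply ((ZMod.isUnit_iff_coprime _ _).2 hac),
    one_of_modEq χ₀ (Dvd.intro _ rfl) ha2, one_mul, ← mul_prod_erase univ _ (mem_univ i0)] at h2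
  rw [prod_eq_one (s := univ.erase i0) (fun i hi => one_of_modEq (χ (s i))
    ((dvd_prod_of_mem s hi).trans (Dvd.intro_left _ rfl)) ha2), mul_one] at h2
  exact ha3 h2.symm

/-- the correlations of the partial products -/
theorem corr {Y : ℕ} (hP : ∀ i, ∀ p ∈ P i, p.Prime ∧ p ≤ Y) (hdis : ∀ i j, i ≠ j → Disjoint (P i) (P j))
    (χ : (p : ℕ) → DirichletCharacter ℂ p) (hχ : ∀ i, ∀ p ∈ P i, χ p ≠ 1) (I : Finset (Fin R)) (s t : Fin R → ℕ)
    (hs : s ∈ Fintype.piFinset P) (ht : t ∈ Fintype.piFinset P) (hst : ∃ i ∈ I, s i ≠ t i) (N : ℕ) :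
    ‖∑ a ∈ Ioc 0 N, (∏ i ∈ I, χ (s i) (a : ZMod (s i))) * (starRingEnd ℂ) (∏ i ∈ I, χ (t i) (a : ZMod (t i)))‖ ≤
      (Y : ℝ) ^ (2 * I.card) := by
  rw [Fintype.mem_piFinset] at hs ht
  obtain ⟨m, hm⟩ : ∃ m : ℕ, m = (∏ i ∈ I, s i) * ∏ i ∈ I, t i := ⟨_, rfl⟩
  have hsm : ∀ i ∈ I, s i ∣ m := by
    intro i hi
    rw [hm]
    exact (dvd_prod_of_mem s hi).trans (Dvd.intro _ rfl)
  have htm : ∀ i ∈ I, t i ∣ m := by
    intro i hi
    rw [hm]
    exact (dvd_prod_of_mem t hi).trans (Dvd.intro_left _ rfl)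
  obtain ⟨Ψ, hΨ⟩ : ∃ Ψ : DirichletCharacter ℂ m, Ψ = (∏ i ∈ I, induced m (χ (s i))) * (∏ i ∈ I, induced m (χ (t i)))⁻¹ := ⟨_, rfl⟩
  have hval : ∀ a : ℕ, (∏ i ∈ I, χ (s i) (a : ZMod (s i))) * (starRingEnd ℂ) (∏ i ∈ I, χ (t i) (a : ZMod (t i))) = Ψ (a : ZMod m) := by
    intro a
    by_cases ha : a.Coprime m
    · rw [hΨ, MulChar.mul_apply, ← MulChar.star_eq_inv, MulChar.star_apply, prod_apply _ _ _ _ ha, prod_apply _ _ _ _ ha]
      congr 1
      · exact prod_congr rfl fun i hi => (induced_apply (hsm i hi) _ ha).symm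
      · show _ = (starRingEnd ℂ) _
        congr 1
        exact prod_congr rfl fun i hi => (induced_apply (htm i hi) _ ha).symm
    · rw [zero_of_not_coprime Ψ ha]
      rw [hm, Nat.coprime_mul_iff_right, not_and_or, Nat.coprime_prod_right_iff, Nat.coprime_prod_right_iff] at ha
      rcases ha with ha | ha
      · push Not at ha
        obtain ⟨i, hi, hai⟩ := ha
        rw [prod_eq_zero hi (zero_of_not_coprime _ hai), zero_mul]
      · push Not at ha
        obtain ⟨i, hi, hai⟩ := ha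
        rw [prod_eq_zero (i := i) (s := I) (f := fun i => χ (t i) (a : ZMod (t i))) hi (zero_of_not_coprime _ hai), map_zero, mul_zero]
  have hm1 : 1 ≤ m := by
    rw [hm]
    apply Nat.one_le_iff_ne_zero.2
    apply mul_ne_zero
    · exact prod_ne_zero_iff.2 fun i _ => (hP i _ (hs i)).1.ne_zero
    · exact prod_ne_zero_iff.2 fun i _ => (hP i _ (ht i)).1.ne_zero
  have hΨ1 : Ψ ≠ 1 := by
    obtain ⟨i0, hi0, hne⟩ := hst
    have hp := (hP i0 _ (hs i0)).1
    have hcop : (s i0).Coprime ((∏ i ∈ I.erase i0, s i) * ∏ i ∈ I, t i) := by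
      rw [Nat.coprime_mul_iff_right, Nat.coprime_prod_right_iff, Nat.coprime_prod_right_iff]
      constructor
      · intro i hi
        rw [mem_erase] at hi
        rw [Nat.coprime_primes hp (hP i _ (hs i)).1]
        intro h
        exact (disjoint_left.1 (hdis i i0 hi.1)) (hs i) (h ▸ hs i0)
      · intro i hi
        rw [Nat.coprime_primes hp (hP i _ (ht i)).1]
        intro h
        by_cases hii : i = i0
        · rw [hii] at h
          exact hne h
        · exact (disjoint_left.1 (hdis i i0 hii)) (ht i) (h ▸ hs i0)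
    obtain ⟨a, ha1, ha2, ha3⟩ := exists_nat hp (χ (s i0)) (hχ i0 _ (hs i0)) _ hcop
    intro h
    have hmm : m = s i0 * ((∏ i ∈ I.erase i0, s i) * ∏ i ∈ I, t i) := by
      rw [hm, ← mul_prod_erase I s hi0, mul_assoc]
    have hac : a.Coprime m := by
      rw [hmm, Nat.coprime_mul_iff_right]
      exact ⟨ha1, coprime_of_modEq ha2⟩
    have h2 := hval a
    rw [h, MulChar.one_apply ((ZMod.isUnit_iff_coprime _ _).2 hac), ← mul_prod_erase I _ hi0,
      prod_eq_one (s := I.erase i0) (fun i hi => one_of_modEq (χ (s i)) ((dvd_prod_of_mem s hi).trans (Dvd.intro _ rfl)) ha2),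
      prod_eq_one (s := I) (f := fun i => χ (t i) (a : ZMod (t i))) (fun i hi => one_of_modEq (χ (t i))
        ((dvd_prod_of_mem t hi).trans (Dvd.intro_left _ rfl)) ha2), map_one, mul_one, mul_one] at h2
    exact ha3 h2
  rw [sum_congr rfl fun a _ => hval a]
  refine (sum_le hm1 Ψ hΨ1 N).trans ?_
  have h1 : m ≤ Y ^ (2 * I.card) := by
    rw [hm, two_mul, pow_add]
    apply Nat.mul_le_mul
    · exact prod_le_pow_card _ _ _ fun i _ => (hP i _ (hs i)).2
    · exact prod_le_pow_card _ _ _ fun i _ => (hP i _ (ht i)).2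
  exact_mod_cast h1

/-- the sum of the first values -/
noncomputable def F {q₀ : ℕ} (χ₀ : DirichletCharacter ℂ q₀) (χ : (p : ℕ) → DirichletCharacter ℂ p) (s : Fin R → ℕ) (N : ℕ) : ℂ :=
  ∑ a ∈ Ioc 0 N, twist χ₀ χ s (a : ZMod (q₀ * ∏ i, s i))

/-- the second moment over the family -/
theorem moment {q₀ Y : ℕ} (hP : ∀ i, ∀ p ∈ P i, p.Prime ∧ p ≤ Y) (hdis : ∀ i j, i ≠ j → Disjoint (P i) (P j))
    (χ₀ : DirichletCharacter ℂ q₀) (χ : (p : ℕ) → DirichletCharacter ℂ p) (hχ : ∀ i, ∀ p ∈ P i, χ p ≠ 1)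
    (I : Finset (Fin R)) (hI : ∀ i ∈ I, (P i).Nonempty) (N : ℕ) :
    ∑ s ∈ Fintype.piFinset P, ‖F χ₀ χ s N‖ ^ 2 ≤
      ((Fintype.piFinset P).card : ℝ) * ((N : ℝ) ^ 2 / (∏ i ∈ I, ((P i).card : ℝ)) + N * (Y : ℝ) ^ (2 * I.card)) := by
  classical
  obtain ⟨fib, hfib⟩ : ∃ fib : (Fin R → ℕ) → Finset (Fin R → ℕ), fib = fun s₀ => (Fintype.piFinset P).filter (fun s => ∀ i, i ∉ I → s i = s₀ i) := ⟨_, rfl⟩
  obtain ⟨Φ, hΦ⟩ : ∃ Φ : ℕ, Φ = ∏ i ∈ I, (P i).card := ⟨_, rfl⟩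
  have hΦ0 : 0 < Φ := by
    rw [hΦ]
    exact prod_pos fun i hi => card_pos.2 (hI i hi)
  have hΦR : (0 : ℝ) < Φ := by exact_mod_cast hΦ0
  have hcardfib : ∀ s₀ ∈ Fintype.piFinset P, (fib s₀).card = Φ := by
    intro s₀ hs₀
    have h1 : fib s₀ = Fintype.piFinset (fun i => if i ∈ I then P i else {s₀ i}) := by
      rw [hfib]
      ext s
      rw [mem_filter, Fintype.mem_piFinset, Fintype.mem_piFinset]
      rw [Fintype.mem_piFinset] at hs₀
      constructor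
      · rintro ⟨h1, h2⟩ i
        split_ifs with hi
        · exact h1 i
        · rw [mem_singleton]
          exact h2 i hi
      · intro h
        constructor
        · intro i
          have := h i
          split_ifs at this with hi
          · exact this
          · rw [mem_singleton] at this
            rw [this]
            exact hs₀ i
        · intro i hi
          have := h i
          rw [if_neg hi, mem_singleton] at this
          exact this
    rw [h1, Fintype.card_piFinset, hΦ]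
    have h2 : ∀ i, (if i ∈ I then P i else {s₀ i}).card = if i ∈ I then (P i).card else 1 := by
      intro i
      split_ifs
      · rfl
      · rfl
    rw [prod_congr rfl fun i _ => h2 i, prod_ite_mem, univ_inter]
  have hbound : ∀ s₀ ∈ Fintype.piFinset P, ∑ s ∈ fib s₀, ‖F χ₀ χ s N‖ ^ 2 ≤ (N : ℝ) * (N + Φ * (Y : ℝ) ^ (2 * I.card)) := by
    intro s₀ hs₀
    have h1 : ∀ s ∈ fib s₀, F χ₀ χ s N = ∑ a ∈ Ioc 0 N, (χ₀ (a : ZMod q₀) * ∏ i ∈ Iᶜ, χ (s₀ i) (a : ZMod (s₀ i))) * ∏ i ∈ I, χ (s i) (a : ZMod (s i)) := by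
      intro s hs
      rw [hfib] at hs
      rw [mem_filter] at hs
      unfold F
      refine sum_congr rfl fun a _ => ?_
      rw [twist_apply, ← prod_mul_prod_compl I, mul_comm (∏ i ∈ I, _), ← mul_assoc]
      congr 2
      refine prod_congr rfl fun i hi => ?_
      rw [hs.2 i (mem_compl.1 hi)]
    have h2 := second (fib s₀) N (fun a => χ₀ (a : ZMod q₀) * ∏ i ∈ Iᶜ, χ (s₀ i) (a : ZMod (s₀ i))) (by
      intro a
      rw [norm_mul, norm_prod]
      calc ‖χ₀ (a : ZMod q₀)‖ * ∏ i ∈ Iᶜ, ‖χ (s₀ i) (a : ZMod (s₀ i))‖ ≤ 1 * 1 :=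
            mul_le_mul (norm_le _ _ _) (prod_le_one (fun i _ => norm_nonneg _) fun i _ => norm_le _ _ _)
              (prod_nonneg fun i _ => norm_nonneg _) zero_le_one
        _ = 1 := one_mul _) (fun s a => ∏ i ∈ I, χ (s i) (a : ZMod (s i))) (by
      intro s a
      show ‖∏ i ∈ I, χ (s i) (a : ZMod (s i))‖ ≤ 1
      rw [norm_prod]
      exact prod_le_one (fun i _ => norm_nonneg _) fun i _ => norm_le _ _ _) ((Y : ℝ) ^ (2 * I.card)) (by positivity) (by
      intro s hs t ht hne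
      rw [hfib] at hs ht
      rw [mem_filter] at hs ht
      refine corr P hP hdis χ hχ I s t hs.1 ht.1 ?_ N
      by_contra hcon
      push Not at hcon
      apply hne
      funext i
      by_cases hi : i ∈ I
      · exact hcon i hi
      · rw [hs.2 i hi, ht.2 i hi])
    rw [hcardfib s₀ hs₀] at h2
    rw [sum_congr rfl fun s hs => by rw [h1 s hs]]
    exact h2
  have hswap : ∑ s₀ ∈ Fintype.piFinset P, ∑ s ∈ fib s₀, ‖F χ₀ χ s N‖ ^ 2 = Φ * ∑ s ∈ Fintype.piFinset P, ‖F χ₀ χ s N‖ ^ 2 := by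
    have h1 : ∀ s₀ ∈ Fintype.piFinset P, ∑ s ∈ fib s₀, ‖F χ₀ χ s N‖ ^ 2 =
        ∑ s ∈ Fintype.piFinset P, if (∀ i, i ∉ I → s i = s₀ i) then ‖F χ₀ χ s N‖ ^ 2 else 0 := by
      intro s₀ _
      rw [hfib]
      exact sum_filter _ _
    rw [sum_congr rfl h1, sum_comm, mul_sum]
    refine sum_congr rfl fun s hs => ?_
    rw [← sum_filter, sum_const, nsmul_eq_mul]
    congr 1
    have h2 : ((Fintype.piFinset P).filter (fun s₀ => ∀ i, i ∉ I → s i = s₀ i)).card = (fib s).card := by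
      rw [hfib]
      congr 1
      ext t
      rw [mem_filter, mem_filter]
      refine and_congr Iff.rfl ⟨fun h i hi => (h i hi).symm, fun h i hi => (h i hi).symm⟩
    rw [h2, hcardfib s hs]
  have h3 : (Φ : ℝ) * ∑ s ∈ Fintype.piFinset P, ‖F χ₀ χ s N‖ ^ 2 ≤
      (Fintype.piFinset P).card * ((N : ℝ) * (N + Φ * (Y : ℝ) ^ (2 * I.card))) := by
    rw [← hswap]
    refine (sum_le_sum hbound).trans (le_of_eq ?_)
    rw [sum_const, nsmul_eq_mul]
  have h4 : (∏ i ∈ I, ((P i).card : ℝ)) = Φ := by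
    rw [hΦ]
    push_cast
    rfl
  rw [h4]
  have h5 : ((Fintype.piFinset P).card : ℝ) * ((N : ℝ) ^ 2 / Φ + N * (Y : ℝ) ^ (2 * I.card)) =
      ((Fintype.piFinset P).card * ((N : ℝ) * (N + Φ * (Y : ℝ) ^ (2 * I.card)))) / Φ := by
    field_simp
  rw [h5, le_div_iff₀ hΦR, mul_comm]
  exact h3

end

end Pool.Agent.V11210.RC
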