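import Pool.Agent.V11210.RC.Family

/-!
# Products of Dirichlet characters with random prime conductors: power saving in all sums beyond a power of `Y`
-/

set_option autoImplicit false

namespace Pool.Agent.V11210.RC

open Finset

theorem root (k N : ℕ) (hk : 1 ≤ k) : ∃ t : ℕ, t ^ k ≤ N ∧ N < (t + 1) ^ k := by
  have hex : ∃ t : ℕ, N < (t + 1) ^ k := ⟨N, lt_of_lt_of_le (Nat.lt_succ_self N) (Nat.le_self_pow (by omega) _)⟩
  classical
  refine ⟨Nat.find hex, ?_, Nat.find_spec hex⟩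
  rcases Nat.eq_zero_or_pos (Nat.find hex) with h | h
  · rw [h, zero_pow (by omega)]
    exact Nat.zero_le _
  · have h1 := Nat.find_min hex (m := Nat.find hex - 1) (by omega)
    rw [Nat.sub_add_cancel h] at h1
    omega

theorem step (k t : ℕ) : (t + 1) ^ k ≤ t ^ k + k * (t + 1) ^ (k - 1) := by
  induction k with
  | zero => simp
  | succ k ih =>
    rcases Nat.eq_zero_or_pos k with hk | hk
    · subst hk
      simp
    · have h1 : (t + 1) ^ (k + 1) = (t + 1) ^ k + t * (t + 1) ^ k := by ring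
      have h2 : t * (t + 1) ^ k ≤ t * (t ^ k + k * (t + 1) ^ (k - 1)) := Nat.mul_le_mul_left _ ih
      have h3 : t * (k * (t + 1) ^ (k - 1)) ≤ k * (t + 1) ^ k := by
        obtain ⟨j, rfl⟩ : ∃ j, k = j + 1 := ⟨k - 1, by omega⟩
        rw [Nat.add_sub_cancel, pow_succ]
        have : t ≤ t + 1 := Nat.le_succ t
        calc t * ((j + 1) * (t + 1) ^ j) = (j + 1) * ((t + 1) ^ j * t) := by ring
          _ ≤ (j + 1) * ((t + 1) ^ j * (t + 1)) := Nat.mul_le_mul_left _ (Nat.mul_le_mul_left _ this)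
      have h4 : t * (t ^ k + k * (t + 1) ^ (k - 1)) = t ^ (k + 1) + t * (k * (t + 1) ^ (k - 1)) := by ring
      rw [h1, Nat.add_sub_cancel]
      have h5 : (k + 1) * (t + 1) ^ k = k * (t + 1) ^ k + (t + 1) ^ k := by ring
      omega

theorem scale {Y N R C : ℕ} (hY : 2 ≤ Y) (h1 : Y ^ 4 ≤ N) (h2 : N ≤ Y ^ (2 * (C + 1) * R)) :
    ∃ K, K ≤ R ∧ Y ^ (4 * K) ≤ N ∧ N ≤ Y ^ (8 * (C + 1) * K) := by
  classical
  by_cases hc : Y ^ (4 * R) ≤ N
  · refine ⟨R, le_rfl, hc, h2.trans (Nat.pow_le_pow_right (by omega) ?_)⟩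
    apply Nat.mul_le_mul_right
    omega
  · obtain ⟨K, hK⟩ : ∃ K : ℕ, K = Nat.findGreatest (fun K => Y ^ (4 * K) ≤ N) R := ⟨_, rfl⟩
    have hK1 : Y ^ (4 * K) ≤ N := by
      rw [hK]
      exact Nat.findGreatest_spec (P := fun K => Y ^ (4 * K) ≤ N) (m := 0) (Nat.zero_le _) (by
        show Y ^ (4 * 0) ≤ N
        rw [mul_zero, pow_zero]
        exact le_trans (Nat.one_le_pow _ _ (by omega)) h1)
    have hKR : K ≤ R := by
      rw [hK]
      exact Nat.findGreatest_le R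
    have hKR' : K < R := by
      rcases hKR.lt_or_eq with h | h
      · exact h
      · rw [h] at hK1
        exact absurd hK1 hc
    have hK2 : N < Y ^ (4 * (K + 1)) := by
      by_contra hcon
      push Not at hcon
      have := Nat.le_findGreatest (P := fun K => Y ^ (4 * K) ≤ N) (n := R) (m := K + 1) hKR' hcon
      omega
    have hK0 : 1 ≤ K := by
      by_contra hcon
      have : K = 0 := by omega
      rw [this, zero_add, mul_one] at hK2
      omega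
    refine ⟨K, hKR, hK1, hK2.le.trans (Nat.pow_le_pow_right (by omega) ?_)⟩
    nlinarith

theorem sum_inv (T M : ℕ) (hT : 1 ≤ T) : ∑ t ∈ Icc T M, (1 : ℝ) / (t : ℝ) ^ 2 ≤ 2 / T := by
  have hT0 : (0 : ℝ) < T := by exact_mod_cast hT
  rcases Nat.lt_or_ge M T with h | h
  · rw [Icc_eq_empty (by omega), sum_empty]
    positivity
  · have key : ∀ M, T ≤ M → ∑ t ∈ Icc T M, (1 : ℝ) / (t : ℝ) ^ 2 ≤ 2 / T - 1 / M := by
      intro M hM
      induction M, hM using Nat.le_induction with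
      | base =>
        rw [Icc_self, sum_singleton]
        have h1 : (1 : ℝ) ≤ T := by exact_mod_cast hT
        have h2 : (1 : ℝ) / (T : ℝ) ^ 2 ≤ 1 / T := one_div_le_one_div_of_le hT0 (by nlinarith)
        have h3 : (2 : ℝ) / T - 1 / T = 1 / T := by ring
        rw [h3]
        exact h2
      | succ M hM ih =>
        have hM0 : (0 : ℝ) < M := by
          have : 0 < M := by omega
          exact_mod_cast this
        rw [sum_Icc_succ_top (by omega : T ≤ M + 1)]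
        have h1 : (1 : ℝ) / ((M + 1 : ℕ) : ℝ) ^ 2 ≤ 1 / M - 1 / ((M + 1 : ℕ) : ℝ) := by
          push_cast
          rw [div_sub_div _ _ hM0.ne' (by positivity), div_le_div_iff₀ (by positivity) (by positivity)]
          nlinarith
        linarith
    have h2 := key M h
    have h3 : (0 : ℝ) ≤ 1 / M := by positivity
    linarith

section

variable {R : ℕ} (P : Fin R → Finset ℕ)

/-- the second moment at the integers `t ^ (32 h (C + 1))` -/
theorem moment_pow {q₀ Y h C : ℕ} (hh : 1 ≤ h) (hY : 2 ≤ Y) (hP : ∀ i, ∀ p ∈ P i, p.Prime ∧ p ≤ Y)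
    (hdis : ∀ i j, i ≠ j → Disjoint (P i) (P j)) (hcard : ∀ i, Y ≤ (P i).card ^ h)
    (χ₀ : DirichletCharacter ℂ q₀) (χ : (p : ℕ) → DirichletCharacter ℂ p) (hχ : ∀ i, ∀ p ∈ P i, χ p ≠ 1)
    (t : ℕ) (ht : Y ≤ t) (ht2 : t ^ (32 * h * (C + 1)) ≤ Y ^ (2 * (C + 1) * R)) :
    ∑ s ∈ Fintype.piFinset P, ‖F χ₀ χ s (t ^ (32 * h * (C + 1)))‖ ^ 2 ≤
      ((Fintype.piFinset P).card : ℝ) * (2 * ((t : ℝ) ^ (32 * h * (C + 1))) ^ 2 / (t : ℝ) ^ 4) := by
  classical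
  obtain ⟨N, hN⟩ : ∃ N : ℕ, N = t ^ (32 * h * (C + 1)) := ⟨_, rfl⟩
  have ht1 : 1 ≤ t := by omega
  have htR : (0 : ℝ) < t := by exact_mod_cast ht1
  have ht1R : (1 : ℝ) ≤ t := by exact_mod_cast ht1
  have hL : 1 ≤ h * (C + 1) := Nat.mul_pos hh (Nat.succ_pos C)
  have h1 : Y ^ 4 ≤ N := by
    rw [hN]
    calc Y ^ 4 ≤ t ^ 4 := Nat.pow_le_pow_left ht 4
      _ ≤ t ^ (32 * h * (C + 1)) := Nat.pow_le_pow_right ht1 (by nlinarith)
  obtain ⟨K, hKR, hK1, hK2⟩ := scale (C := C) hY h1 (hN ▸ ht2)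
  obtain ⟨I, hI⟩ : ∃ I : Finset (Fin R), I = univ.filter (fun i : Fin R => i.val < K) := ⟨_, rfl⟩
  have hIc : I.card = K := by
    rw [hI, Fin.card_filter_val_lt]
    omega
  have hpos : ∀ i, 0 < (P i).card := by
    intro i
    by_contra hcon
    have h2 : (P i).card = 0 := by omega
    have h3 := hcard i
    rw [h2, zero_pow (by omega)] at h3
    omega
  have hm := moment P hP hdis χ₀ χ hχ I (fun i _ => card_pos.1 (hpos i)) N
  rw [hIc] at hm
  obtain ⟨Φ, hΦ⟩ : ∃ Φ : ℕ, Φ = ∏ i ∈ I, (P i).card := ⟨_, rfl⟩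
  have hΦR : (∏ i ∈ I, ((P i).card : ℝ)) = Φ := by
    rw [hΦ]
    push_cast
    rfl
  have hYΦ : Y ^ K ≤ Φ ^ h := by
    rw [hΦ, ← hIc, ← prod_pow, ← prod_const]
    exact prod_le_prod' fun i _ => hcard i
  have htΦ : t ^ 4 ≤ Φ := by
    have h2 : (t ^ 4) ^ (8 * (h * (C + 1))) ≤ Φ ^ (8 * (h * (C + 1))) := by
      calc (t ^ 4) ^ (8 * (h * (C + 1))) = N := by
            rw [hN, ← pow_mul]
            congr 1
            ring
        _ ≤ Y ^ (8 * (C + 1) * K) := hK2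
        _ = (Y ^ K) ^ (8 * (C + 1)) := by
            rw [← pow_mul]
            congr 1
            ring
        _ ≤ (Φ ^ h) ^ (8 * (C + 1)) := Nat.pow_le_pow_left hYΦ _
        _ = Φ ^ (8 * (h * (C + 1))) := by
            rw [← pow_mul]
            congr 1
            ring
    exact (Nat.pow_le_pow_iff_left (by omega)).1 h2
  have hY2K : Y ^ (2 * K) * t ^ 4 ≤ N := by
    have h2 : (Y ^ (2 * K)) ^ 2 ≤ (t ^ (16 * (h * (C + 1)))) ^ 2 := by
      calc (Y ^ (2 * K)) ^ 2 = Y ^ (4 * K) := by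
            rw [← pow_mul]
            congr 1
            ring
        _ ≤ N := hK1
        _ = (t ^ (16 * (h * (C + 1)))) ^ 2 := by
            rw [hN, ← pow_mul]
            congr 1
            ring
    have h3 : Y ^ (2 * K) ≤ t ^ (16 * (h * (C + 1))) := (Nat.pow_le_pow_iff_left (by omega)).1 h2
    calc Y ^ (2 * K) * t ^ 4 ≤ t ^ (16 * (h * (C + 1))) * t ^ (16 * (h * (C + 1))) :=
          Nat.mul_le_mul h3 (Nat.pow_le_pow_right ht1 (by omega))
      _ = N := by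
          rw [hN, ← pow_add]
          congr 1
          ring
  rw [← hN]
  have hNR : ((t : ℝ) ^ (32 * h * (C + 1))) = (N : ℝ) := by
    rw [hN]
    push_cast
    rfl
  rw [hNR]
  refine hm.trans (mul_le_mul_of_nonneg_left ?_ (Nat.cast_nonneg _))
  rw [hΦR]
  have hN0 : (0 : ℝ) ≤ N := Nat.cast_nonneg N
  have hΦt : ((t : ℝ) ^ 4) ≤ Φ := by exact_mod_cast htΦ
  have e1 : (N : ℝ) ^ 2 / Φ ≤ (N : ℝ) ^ 2 / (t : ℝ) ^ 4 := div_le_div_of_nonneg_left (by positivity) (by positivity) hΦt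
  have e2 : (N : ℝ) * (Y : ℝ) ^ (2 * K) ≤ (N : ℝ) ^ 2 / (t : ℝ) ^ 4 := by
    rw [le_div_iff₀ (by positivity)]
    have h3 : ((Y : ℝ) ^ (2 * K)) * (t : ℝ) ^ 4 ≤ N := by exact_mod_cast hY2K
    calc (N : ℝ) * (Y : ℝ) ^ (2 * K) * (t : ℝ) ^ 4 = N * ((Y : ℝ) ^ (2 * K) * (t : ℝ) ^ 4) := by ring
      _ ≤ (N : ℝ) * (N : ℝ) := mul_le_mul_of_nonneg_left h3 hN0
      _ = (N : ℝ) ^ 2 := by ring
  calc (N : ℝ) ^ 2 / Φ + (N : ℝ) * (Y : ℝ) ^ (2 * K) ≤ (N : ℝ) ^ 2 / (t : ℝ) ^ 4 + (N : ℝ) ^ 2 / (t : ℝ) ^ 4 := add_le_add e1 e2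
    _ = 2 * (N : ℝ) ^ 2 / (t : ℝ) ^ 4 := by ring

open Classical in
/-- the exceptions at one of the integers `t ^ k`, `k = 32 h (C + 1)` -/
theorem bad_pow {q₀ Y h C : ℕ} (hh : 1 ≤ h) (hY : 2 ≤ Y) (hP : ∀ i, ∀ p ∈ P i, p.Prime ∧ p ≤ Y)
    (hdis : ∀ i j, i ≠ j → Disjoint (P i) (P j)) (hcard : ∀ i, Y ≤ (P i).card ^ h)
    (χ₀ : DirichletCharacter ℂ q₀) (χ : (p : ℕ) → DirichletCharacter ℂ p) (hχ : ∀ i, ∀ p ∈ P i, χ p ≠ 1)
    (t : ℕ) (ht : Y ≤ t) (ht2 : t ^ (32 * h * (C + 1)) ≤ Y ^ (2 * (C + 1) * R)) :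
    (((Fintype.piFinset P).filter (fun s => ¬ ‖F χ₀ χ s (t ^ (32 * h * (C + 1)))‖ ≤ (t : ℝ) ^ (32 * h * (C + 1)) / t)).card : ℝ) ≤
      ((Fintype.piFinset P).card : ℝ) * (2 * (1 / (t : ℝ) ^ 2)) := by
  have ht1 : 1 ≤ t := by omega
  have htR : (0 : ℝ) < t := by exact_mod_cast ht1
  have h1 := moment_pow P hh hY hP hdis hcard χ₀ χ hχ t ht ht2
  obtain ⟨k, hk⟩ : ∃ k : ℕ, k = 32 * h * (C + 1) := ⟨_, rfl⟩
  rw [← hk] at h1 ⊢
  have h2 : (((Fintype.piFinset P).filter (fun s => ¬ ‖F χ₀ χ s (t ^ k)‖ ≤ (t : ℝ) ^ k / t)).card : ℝ) * ((t : ℝ) ^ k / t) ^ 2 ≤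
      ∑ s ∈ Fintype.piFinset P, ‖F χ₀ χ s (t ^ k)‖ ^ 2 := by
    rw [← nsmul_eq_mul, ← sum_const]
    refine (sum_le_sum fun s hs => ?_).trans (sum_le_sum_of_subset_of_nonneg (filter_subset _ _) fun s _ _ => by positivity)
    rw [mem_filter, not_le] at hs
    exact pow_le_pow_left₀ (by positivity) hs.2.le 2
  have h3 : (0 : ℝ) < ((t : ℝ) ^ k / t) ^ 2 := by positivity
  refine le_of_mul_le_mul_right ((h2.trans h1).trans (le_of_eq ?_)) h3
  field_simp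

open Classical in
/-- **Power saving for almost all members of the family.** -/
theorem main {q₀ Y h C B : ℕ} (hh : 1 ≤ h) (hR : 1 ≤ R) (hP : ∀ i, ∀ p ∈ P i, p.Prime ∧ p ≤ Y)
    (hY : (1 + 32 * h * (C + 1) * 2 ^ (32 * h * (C + 1))) ^ 2 + 4 ≤ Y)
    (hdis : ∀ i j, i ≠ j → Disjoint (P i) (P j)) (hcard : ∀ i, Y ≤ (P i).card ^ h)
    (hq1 : 1 ≤ q₀) (hq : q₀ ≤ Y ^ (C * R)) (hqP : ∀ i, ∀ p ∈ P i, ¬ p ∣ q₀)
    (χ₀ : DirichletCharacter ℂ q₀) (χ : (p : ℕ) → DirichletCharacter ℂ p) (hχ : ∀ i, ∀ p ∈ P i, χ p ≠ 1) :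
    (((Fintype.piFinset P).filter (fun s => ¬ ∀ N : ℕ, Y ^ ((B + 1) * (32 * h * (C + 1))) ≤ N →
      ‖F χ₀ χ s N‖ ≤ (N : ℝ) ^ (1 - 1 / (2 * (32 * h * (C + 1) : ℕ) : ℝ)))).card : ℝ) ≤
      1 / (Y : ℝ) ^ B * ((Fintype.piFinset P).card : ℝ) := by
  obtain ⟨k, hk⟩ : ∃ k : ℕ, k = 32 * h * (C + 1) := ⟨_, rfl⟩
  have hk1 : 32 ≤ k := by
    rw [hk]
    have : 1 ≤ h * (C + 1) := Nat.mul_pos hh (Nat.succ_pos C)
    nlinarith
  obtain ⟨U, hU⟩ : ∃ U : ℕ, U = Y ^ (2 * (C + 1) * R) := ⟨_, rfl⟩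
  obtain ⟨T, hT⟩ : ∃ T : ℕ, T = Y ^ (B + 1) := ⟨_, rfl⟩
  have hY4 : 4 ≤ Y := by omega
  have hYT : Y ≤ T := by
    rw [hT]
    exact Nat.le_self_pow (by omega) Y
  have hT1 : 1 ≤ T := by omega
  obtain ⟨W, hW⟩ : ∃ W : ℕ, W = 1 + k * 2 ^ k := ⟨_, rfl⟩
  have hWT : W ^ 2 ≤ T := by
    rw [← hk, ← hW] at hY
    omega
  have hTk : Y ^ ((B + 1) * k) = T ^ k := by
    rw [hT, ← pow_mul]
  rw [← hk, hTk]
  have hkR : (0 : ℝ) < k := by
    have : 0 < k := by omega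
    exact_mod_cast this
  -- reduction to the integers `t ^ k`
  have hgood : ∀ s ∈ Fintype.piFinset P, (∀ t ∈ (Icc T U).filter (fun t => t ^ k ≤ U), ‖F χ₀ χ s (t ^ k)‖ ≤ (t : ℝ) ^ k / t) →
      ∀ N : ℕ, T ^ k ≤ N → ‖F χ₀ χ s N‖ ≤ (N : ℝ) ^ (1 - 1 / (2 * (k : ℕ) : ℝ)) := by
    intro s hs hst N hN
    obtain ⟨t, ht1, ht2⟩ := root k N (by omega)
    have htT : T ≤ t := by
      have : T ^ k < (t + 1) ^ k := lt_of_le_of_lt hN ht2
      have := (Nat.pow_lt_pow_iff_left (by omega)).1 this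
      omega
    have ht0 : 1 ≤ t := by omega
    have htR : (0 : ℝ) < t := by exact_mod_cast ht0
    have hN1 : 1 ≤ N := le_trans (Nat.one_le_pow _ _ (by omega)) hN
    have hNR : (0 : ℝ) < N := by exact_mod_cast hN1
    have hN1R : (1 : ℝ) ≤ N := by exact_mod_cast hN1
    by_cases htU : t ^ k ≤ U
    · have htU' : t ≤ U := le_trans (Nat.le_self_pow (by omega) t) htU
      have e1 := hst t (by
        rw [mem_filter, mem_Icc]
        exact ⟨⟨htT, htU'⟩, htU⟩)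
      have e2 : ‖F χ₀ χ s N‖ ≤ ‖F χ₀ χ s (t ^ k)‖ + ((N : ℝ) - (t : ℝ) ^ k) := by
        unfold F
        rw [← sum_Ioc_consecutive _ (Nat.zero_le (t ^ k)) ht1]
        refine (norm_add_le _ _).trans (add_le_add le_rfl ?_)
        have h3 : ∀ a ∈ Ioc (t ^ k) N, ‖twist χ₀ χ s ((a : ℕ) : ZMod (q₀ * ∏ i, s i))‖ ≤ (1 : ℝ) := fun a _ => norm_le _ _ _
        refine (norm_sum_le _ _).trans ((sum_le_sum h3).trans ?_)
        rw [sum_const, Nat.card_Ioc, nsmul_eq_mul, mul_one, Nat.cast_sub ht1]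
        push_cast
        exact le_rfl
      have e3 : (N : ℝ) - (t : ℝ) ^ k ≤ k * 2 ^ k * (t : ℝ) ^ (k - 1) := by
        have h4 := step k t
        have h5 : N ≤ t ^ k + k * (t + 1) ^ (k - 1) := by omega
        have h6 : (t + 1) ^ (k - 1) ≤ 2 ^ k * t ^ (k - 1) := by
          calc (t + 1) ^ (k - 1) ≤ (2 * t) ^ (k - 1) := Nat.pow_le_pow_left (by omega) _
            _ = 2 ^ (k - 1) * t ^ (k - 1) := mul_pow _ _ _
            _ ≤ 2 ^ k * t ^ (k - 1) := Nat.mul_le_mul_right _ (Nat.pow_le_pow_right (by norm_num) (by omega))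
        have h7 : N ≤ t ^ k + k * (2 ^ k * t ^ (k - 1)) := h5.trans (Nat.add_le_add_left (Nat.mul_le_mul_left _ h6) _)
        have h8 : (N : ℝ) ≤ (t : ℝ) ^ k + k * (2 ^ k * (t : ℝ) ^ (k - 1)) := by exact_mod_cast h7
        linarith
      have e4 : (t : ℝ) ^ k / t = (t : ℝ) ^ (k - 1) := by
        rw [div_eq_iff htR.ne', ← pow_succ]
        congr 1
        omega
      have e5 : ‖F χ₀ χ s N‖ ≤ W * (t : ℝ) ^ (k - 1) := by
        rw [hW]
        push_cast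
        rw [e4] at e1
        calc ‖F χ₀ χ s N‖ ≤ (t : ℝ) ^ (k - 1) + k * 2 ^ k * (t : ℝ) ^ (k - 1) := e2.trans (add_le_add e1 e3)
          _ = (1 + k * 2 ^ k) * (t : ℝ) ^ (k - 1) := by ring
      have e6 : (t : ℝ) ^ (k - 1) ≤ (N : ℝ) ^ (1 - 1 / (k : ℝ)) := by
        have h9 : (t : ℝ) ^ (k - 1) = ((t : ℝ) ^ k) ^ (1 - 1 / (k : ℝ)) := by
          rw [← Real.rpow_natCast (t : ℝ) (k - 1), ← Real.rpow_natCast (t : ℝ) k, ← Real.rpow_mul htR.le]
          congr 1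
          rw [Nat.cast_sub (by omega)]
          push_cast
          field_simp
        rw [h9]
        apply Real.rpow_le_rpow (by positivity) (by exact_mod_cast ht1)
        have : 1 / (k : ℝ) ≤ 1 := by
          rw [div_le_one hkR]
          have : 1 ≤ k := by omega
          exact_mod_cast this
        linarith
      have e7 : (W : ℝ) ≤ (N : ℝ) ^ (1 / (2 * (k : ℝ))) := by
        have h10 : (W : ℝ) = ((W : ℝ) ^ (2 * k)) ^ (1 / (2 * (k : ℝ))) := by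
          rw [← Real.rpow_natCast (W : ℝ) (2 * k), ← Real.rpow_mul (Nat.cast_nonneg W)]
          push_cast
          rw [mul_one_div_cancel (by positivity), Real.rpow_one]
        rw [h10]
        apply Real.rpow_le_rpow (by positivity) _ (by positivity)
        have h11 : W ^ (2 * k) ≤ N := by
          rw [pow_mul]
          exact (Nat.pow_le_pow_left hWT k).trans hN
        exact_mod_cast h11
      calc ‖F χ₀ χ s N‖ ≤ W * (t : ℝ) ^ (k - 1) := e5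
        _ ≤ (N : ℝ) ^ (1 / (2 * (k : ℝ))) * (N : ℝ) ^ (1 - 1 / (k : ℝ)) := mul_le_mul e7 e6 (by positivity) (by positivity)
        _ = (N : ℝ) ^ (1 - 1 / (2 * (k : ℕ) : ℝ)) := by
          rw [← Real.rpow_add hNR]
          congr 1
          field_simp
          ring
    · have hqs : (q₀ * ∏ i, s i) ^ 2 ≤ N := by
        have h3 : ∏ i, s i ≤ Y ^ R := by
          have := prod_le_pow_card univ s Y fun i _ => (hP i _ ((Fintype.mem_piFinset.1 hs) i)).2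
          simpa using this
        have h4 : q₀ * ∏ i, s i ≤ Y ^ ((C + 1) * R) := by
          calc q₀ * ∏ i, s i ≤ Y ^ (C * R) * Y ^ R := Nat.mul_le_mul hq h3
            _ = Y ^ ((C + 1) * R) := by
              rw [← pow_add]
              congr 1
              ring
        calc (q₀ * ∏ i, s i) ^ 2 ≤ (Y ^ ((C + 1) * R)) ^ 2 := Nat.pow_le_pow_left h4 2
          _ = U := by
            rw [hU, ← pow_mul]
            congr 1
            ring
          _ ≤ t ^ k := by omega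
          _ ≤ N := ht1
      have h5 := sum_le (Nat.mul_pos hq1 (prod_pos fun i _ => (hP i _ ((Fintype.mem_piFinset.1 hs) i)).1.pos)) (twist χ₀ χ s)
        (twist_ne_one P hR (fun i p hp => (hP i p hp).1) hdis hqP χ₀ χ hχ s hs) N
      have h6 : (((q₀ * ∏ i, s i : ℕ)) : ℝ) ≤ (N : ℝ) ^ (1 / 2 : ℝ) := by
        rw [← Real.sqrt_eq_rpow]
        apply Real.le_sqrt_of_sq_le
        exact_mod_cast hqs
      refine (h5.trans h6).trans (Real.rpow_le_rpow_of_exponent_le hN1R ?_)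
      have h7 : 1 / (2 * (k : ℝ)) ≤ 1 / 2 := by
        apply one_div_le_one_div_of_le (by norm_num)
        have : (1 : ℝ) ≤ k := by
          have : 1 ≤ k := by omega
          exact_mod_cast this
        linarith
      linarith
  -- the union bound
  have hsub : (Fintype.piFinset P).filter (fun s => ¬ ∀ N : ℕ, T ^ k ≤ N → ‖F χ₀ χ s N‖ ≤ (N : ℝ) ^ (1 - 1 / (2 * (k : ℕ) : ℝ))) ⊆
      ((Icc T U).filter (fun t => t ^ k ≤ U)).biUnion (fun t => (Fintype.piFinset P).filter (fun s => ¬ ‖F χ₀ χ s (t ^ k)‖ ≤ (t : ℝ) ^ k / t)) := by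
    intro s hs
    rw [mem_filter] at hs
    by_contra hcon
    apply hs.2
    apply hgood s hs.1
    intro t ht
    by_contra hc
    apply hcon
    rw [mem_biUnion]
    exact ⟨t, ht, mem_filter.2 ⟨hs.1, hc⟩⟩
  have h1 : (((Fintype.piFinset P).filter (fun s => ¬ ∀ N : ℕ, T ^ k ≤ N → ‖F χ₀ χ s N‖ ≤ (N : ℝ) ^ (1 - 1 / (2 * (k : ℕ) : ℝ)))).card : ℝ) ≤
      ∑ t ∈ (Icc T U).filter (fun t => t ^ k ≤ U), ((Fintype.piFinset P).card : ℝ) * (2 * (1 / (t : ℝ) ^ 2)) := by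
    have h2 := (card_le_card hsub).trans card_biUnion_le
    have h3 : ((∑ t ∈ (Icc T U).filter (fun t => t ^ k ≤ U), ((Fintype.piFinset P).filter (fun s => ¬ ‖F χ₀ χ s (t ^ k)‖ ≤ (t : ℝ) ^ k / t)).card : ℕ) : ℝ) ≤
        ∑ t ∈ (Icc T U).filter (fun t => t ^ k ≤ U), ((Fintype.piFinset P).card : ℝ) * (2 * (1 / (t : ℝ) ^ 2)) := by
      push_cast
      refine sum_le_sum fun t ht => ?_
      rw [mem_filter, mem_Icc] at ht
      have h4 := bad_pow P hh (by omega : 2 ≤ Y) hP hdis hcard χ₀ χ hχ t (by omega) (C := C) (by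
        rw [← hk, ← hU]
        exact ht.2)
      rw [← hk] at h4
      exact h4
    exact le_trans (by exact_mod_cast h2) h3
  refine h1.trans ?_
  rw [← mul_sum, ← mul_sum, mul_comm]
  apply mul_le_mul_of_nonneg_right _ (Nat.cast_nonneg _)
  have h5 : ∑ t ∈ (Icc T U).filter (fun t => t ^ k ≤ U), (1 : ℝ) / (t : ℝ) ^ 2 ≤ 2 / T :=
    (sum_le_sum_of_subset_of_nonneg (filter_subset _ _) fun t _ _ => by positivity).trans (sum_inv T U hT1)
  have hYR : (4 : ℝ) ≤ Y := by exact_mod_cast hY4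
  have hTR : (T : ℝ) = (Y : ℝ) ^ B * Y := by
    rw [hT]
    push_cast
    rw [pow_succ]
  calc 2 * ∑ t ∈ (Icc T U).filter (fun t => t ^ k ≤ U), (1 : ℝ) / (t : ℝ) ^ 2 ≤ 2 * (2 / T) := mul_le_mul_of_nonneg_left h5 (by norm_num)
    _ = 4 / ((Y : ℝ) ^ B * Y) := by
      rw [hTR]
      ring
    _ ≤ 1 / (Y : ℝ) ^ B := by
      rw [div_le_div_iff₀ (by positivity) (by positivity)]
      have : 0 < (Y : ℝ) ^ B := by positivity
      nlinarith

end

end Pool.Agent.V11210.RC
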